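import Pool.Agent.K3h71.NP.Stm
import Pool.Agent.K3h82.CP.PtC

/-!
# Project NP, brick ASYV: the points of a hypersurface in the affine space of dimension three
-/

set_option autoImplicit false
set_option linter.all false

namespace Pool.Agent.K3h60.NP

open Polynomial Pool.Agent.K3h82.CP Pool.Agent.R410.NG Pool.Agent.K3h71.NP

section
variable {A : Type} [CommRing A] {F : Type} [Field F]

theorem finHom (A : Type) [CommRing A] [Algebra.FiniteType ℤ A] (F : Type) [Field F] [Finite F] :
    Finite (A →+* F) := by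
  obtain ⟨G, hG⟩ := (inferInstance : Algebra.FiniteType ℤ A).out
  refine Finite.of_injective (fun (φ : A →+* F) (g : G) => φ g) ?_
  intro φ ψ h
  have h1 : φ.toIntAlgHom = ψ.toIntAlgHom := by
    refine AlgHom.ext_of_adjoin_eq_top hG ?_
    intro x hx
    exact congrFun h ⟨x, hx⟩
  ext x
  exact congrArg (fun f : A →ₐ[ℤ] F => f x) h1

/-- the zeros of a monic polynomial with vanishing `c` -/
theorem bad_le [Finite F] [Finite (A →+* F)] (v : A[X][X]) (hv : v.Monic) (c : A) :
    Nat.card {φ : A[X][X] →+* F // φ (C (C c)) = 0 ∧ φ v = 0} ≤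
      v.natDegree * Nat.card F * Nat.card {ψ : A →+* F // ψ c = 0} := by
  classical
  let _ := Fintype.ofFinite F
  let _ := Fintype.ofFinite (A →+* F)
  let P := {ψ : A →+* F // ψ c = 0}
  let S (p : P × F) : Finset F := (v.map (eval₂RingHom p.1.1 p.2)).roots.toFinset
  have hS : ∀ p : P × F, (S p).card ≤ v.natDegree := by
    intro p
    have h1 := (Multiset.toFinset_card_le (v.map (eval₂RingHom p.1.1 p.2)).roots).trans
      (Polynomial.card_roots' _)
    exact h1.trans (Polynomial.natDegree_map_le)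
  have hφ : ∀ φ : A[X][X] →+* F, φ = eval₂RingHom (eval₂RingHom ((φ.comp C).comp C) (φ (C X)))
      (φ X) := by
    intro φ
    apply Polynomial.ringHom_ext
    · intro p
      rw [coe_eval₂RingHom, eval₂_C]
      have h2 : φ.comp C = eval₂RingHom ((φ.comp C).comp C) (φ (C X)) := by
        apply Polynomial.ringHom_ext
        · intro a
          rw [coe_eval₂RingHom, eval₂_C]
          rfl
        · rw [coe_eval₂RingHom, eval₂_X]
          rfl
      exact congrArg (fun g : A[X] →+* F => g p) h2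
    · rw [coe_eval₂RingHom, eval₂_X]
  let g : {φ : A[X][X] →+* F // φ (C (C c)) = 0 ∧ φ v = 0} → (Σ p : P × F, S p) := fun φ =>
    ⟨(⟨(φ.1.comp C).comp C, φ.2.1⟩, φ.1 (C X)), ⟨φ.1 X, by
      show φ.1 X ∈ (v.map (eval₂RingHom ((φ.1.comp C).comp C) (φ.1 (C X)))).roots.toFinset
      rw [Multiset.mem_toFinset, mem_roots (hv.map _).ne_zero, IsRoot.def, eval_map]
      have h3 := congrArg (fun f : A[X][X] →+* F => f v) (hφ φ.1)
      simp only [coe_eval₂RingHom] at h3
      exact h3.symm.trans φ.2.2⟩⟩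
  have hg : Function.Injective g := by
    intro φ ψ h
    have e1 : (g φ).1 = (g ψ).1 := by rw [h]
    have e2 : ((g φ).2 : F) = ((g ψ).2 : F) := by rw [h]
    have e3 : (φ.1.comp C).comp C = (ψ.1.comp C).comp C :=
      congrArg (fun q : P × F => q.1.1) e1
    have e4 : φ.1 (C X) = ψ.1 (C X) := congrArg (fun q : P × F => q.2) e1
    have e5 : φ.1 X = ψ.1 X := e2
    apply Subtype.ext
    rw [hφ φ.1, hφ ψ.1, e3, e4, e5]
  have h1 := Nat.card_le_card_of_injective g hg
  refine h1.trans ?_
  rw [Nat.card_sigma]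
  have h2 : ∑ p : P × F, Nat.card (S p) ≤ ∑ _p : P × F, v.natDegree :=
    Finset.sum_le_sum fun p _ => by
      rw [Nat.card_eq_fintype_card, Fintype.card_coe]
      exact hS p
  refine h2.trans (le_of_eq ?_)
  rw [Finset.sum_const, Finset.card_univ, smul_eq_mul, ← Nat.card_eq_fintype_card, Nat.card_prod]
  ring

end

section
variable {M K : Type} [Field M] [CharZero M] [Field K] [CharZero K] [Algebra M K] {ω : K}

theorem phA_C' (A : Type) [CommRing A] [Algebra A M] (ω : K) (a : A) :
    phA (M := M) A ω (C a) = algebraMap M K (algebraMap A M a) := by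
  unfold phA
  rw [coe_eval₂RingHom, eval₂_C]
  rfl

theorem phA_X' (A : Type) [CommRing A] [Algebra A M] (ω : K) :
    phA (M := M) A ω X = ω := by
  unfold phA
  rw [coe_eval₂RingHom, eval₂_X]

end

/-- the factors of a monic polynomial over `M[X][Z]` and over `M(X)[Z]` -/
theorem nF_up (hG : StmGauss) (M K L : Type) [Field M] [CharZero M] [Field K] [CharZero K]
    [Field L] [CharZero L] [Algebra M K] [Algebra K L] (ω : K) (θ : L) (hω : Transcendental M ω)
    (htop : IntermediateField.adjoin M {ω} = ⊤) (hθ : Transcendental K θ)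
    (htop' : IntermediateField.adjoin K {θ} = ⊤) (A : Type) [CommRing A] [Algebra A M]
    (v : A[X][X][X]) (hv : v.Monic) :
    nF (v.map (mapRingHom (mapRingHom (algebraMap A M)))) =
      nF (v.map (mapRingHom (phA (M := M) A ω))) := by
  let i1 : Algebra M[X] K := (phA (M := M) M ω).toAlgebra
  have f1 : IsFractionRing M[X] K := phA_frac M hω htop
  have g1 : nF ((v.map (mapRingHom (mapRingHom (algebraMap A M)))).map
      (phA (M := K) M[X] θ)) = nF (v.map (mapRingHom (mapRingHom (algebraMap A M)))) := by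
    let i2 : Algebra M[X][X] L := (phA (M := K) M[X] θ).toAlgebra
    have f2 : IsFractionRing M[X][X] L := phA_frac M[X] hθ htop'
    exact hG M[X][X] L _ (hv.map _)
  have g2 : nF ((v.map (mapRingHom (phA (M := M) A ω))).map (phA (M := K) K θ)) =
      nF (v.map (mapRingHom (phA (M := M) A ω))) := by
    let i3 : Algebra K[X] L := (phA (M := K) K θ).toAlgebra
    have f3 : IsFractionRing K[X] L := phA_frac K hθ htop'
    exact hG K[X] L _ (hv.map _)
  rw [← g1, ← g2, Polynomial.map_map, Polynomial.map_map]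
  congr 2
  apply Polynomial.ringHom_ext
  · intro p
    have h2 : ((phA (M := K) M[X] θ).comp (mapRingHom (mapRingHom (algebraMap A M)))).comp C =
        ((phA (M := K) K θ).comp (mapRingHom (phA (M := M) A ω))).comp C := by
      apply Polynomial.ringHom_ext
      · intro a
        simp only [RingHom.comp_apply, coe_mapRingHom, Polynomial.map_C]
        rw [phA_C', phA_C', phA_C']
        congr 1
        show phA (M := M) M ω (C (algebraMap A M a)) = _
        rw [phA_C']
        rfl
      · simp only [RingHom.comp_apply, coe_mapRingHom, Polynomial.map_C, Polynomial.map_X]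
        rw [phA_C', phA_C', phA_X']
        congr 1
        show phA (M := M) M ω X = _
        rw [phA_X']
        rfl
    exact congrArg (fun f : A[X] →+* L => f p) h2
  · simp only [RingHom.comp_apply, coe_mapRingHom, Polynomial.map_X]
    rw [phA_X', phA_X']

theorem core (hG : StmGauss) (M K L : Type) [Field M] [CharZero M] [Field K] [CharZero K]
    [Field L] [CharZero L] [Algebra M K] [Algebra K L] (ω : K) (θ : L) (hω : Transcendental M ω)
    (htop : IntermediateField.adjoin M {ω} = ⊤) (hθ : Transcendental K θ)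
    (htop' : IntermediateField.adjoin K {θ} = ⊤) (A₀ : Type) [CommRing A₀] [IsDomain A₀]
    [Algebra A₀ M] [IsFractionRing A₀ M] [Algebra.FiniteType ℤ A₀] (d : ℕ)
    (hd : Algebra.trdeg ℚ M = d) (v : A₀[X][X][X]) (hv : v.Monic) :
    Asy (fun F _ _ => (Nat.card {φ : A₀[X][X][X] →+* F // φ v = 0} : ℝ)) (d + 2)
      (nF (v.map (mapRingHom (mapRingHom (algebraMap A₀ M))))) := by
  classical
  rw [nF_up hG M K L ω θ hω htop hθ htop' A₀ v hv]
  let i1 : Algebra A₀[X] K := (phA (M := M) A₀ ω).toAlgebra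
  have f1 : IsFractionRing A₀[X] K := phA_frac A₀ hω htop
  have htr : Algebra.trdeg ℚ K = (d + 1 : ℕ) := trdeg_line hd hω htop
  have hft' : Algebra.FiniteType ℤ A₀[X] := inferInstance
  have hft := Pool.Agent.R410.LW.ft_int _ hft'
  set B : K[X][X] := mp A₀[X] K v with hB
  have hB' : B = v.map (mapRingHom (phA (M := M) A₀ ω)) := rfl
  have hBm : B.Monic := hv.map _
  have hB0 : B ≠ 0 := hBm.ne_zero
  have hfin : Finite (Cmp B) := cmp_finite hB0
  let _ : Fintype (Cmp B) := Fintype.ofFinite _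
  obtain ⟨c, hc, h⟩ := asy_div (A₀ := A₀[X]) htr hB0 (fac_cmp B) hB.symm
  have h1 := h 1 one_ne_zero
  rw [mul_one] at h1
  have e1 : ((Fintype.card (Cmp B) : ℕ) : ℝ) =
      (nF (v.map (mapRingHom (phA (M := M) A₀ ω))) : ℝ) := by
    rw [← Nat.card_eq_fintype_card]
    rfl
  rw [e1] at h1
  obtain ⟨C0, N, hC0, hN, hbd⟩ := Pool.Agent.R410.BS.good_le (R := A₀[X]) (K := K)
    (IsFractionRing.injective A₀[X] K) (e := d + 1) (le_of_eq htr) hc
  refine h1.near ⟨v.natDegree * C0, N, by positivity, hN, fun F _ _ hF => ?_⟩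
  have hb := (hbd F hF).2
  have hfA : Finite (A₀[X] →+* F) := finHom A₀[X] F
  have hft3 : Algebra.FiniteType ℤ A₀[X][X][X] := inferInstance
  have hft4 := Pool.Agent.R410.LW.ft_int (R := A₀[X][X][X]) _ hft3
  have hfB : Finite (A₀[X][X][X] →+* F) := finHom A₀[X][X][X] F
  have hq : (1 : ℝ) ≤ (Nat.card F : ℝ) := by
    exact_mod_cast Nat.one_le_iff_ne_zero.2 Nat.card_pos.ne'
  have hq0 : (0 : ℝ) ≤ (Nat.card F : ℝ) := by linarith
  have hsq : √(Nat.card F : ℝ) ≤ (Nat.card F : ℝ) := by
    rw [Real.sqrt_le_left hq0]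
    nlinarith
  -- the difference
  have hsplit : (Nat.card {φ : A₀[X][X][X] →+* F // φ v = 0} : ℝ) -
      (Nat.card {φ : A₀[X][X][X] →+* F // φ (C (C c)) ≠ 0 ∧ φ v = 0} : ℝ) =
      (Nat.card {φ : A₀[X][X][X] →+* F // φ (C (C c)) = 0 ∧ φ v = 0} : ℝ) := by
    have e2 : Nat.card {φ : A₀[X][X][X] →+* F // φ v = 0} =
        Nat.card {φ : A₀[X][X][X] →+* F // φ (C (C c)) = 0 ∧ φ v = 0} +
        Nat.card {φ : A₀[X][X][X] →+* F // φ (C (C c)) ≠ 0 ∧ φ v = 0} := by
      let _ := Fintype.ofFinite (A₀[X][X][X] →+* F)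
      rw [Nat.card_eq_fintype_card, Nat.card_eq_fintype_card, Nat.card_eq_fintype_card,
        Fintype.card_subtype, Fintype.card_subtype, Fintype.card_subtype,
        ← Finset.card_union_of_disjoint]
      · congr 1
        ext φ
        simp only [Finset.mem_filter, Finset.mem_univ, true_and, Finset.mem_union]
        tauto
      · rw [Finset.disjoint_left]
        intro φ h2 h3
        simp only [Finset.mem_filter, Finset.mem_univ, true_and] at h2 h3
        exact h3.1 h2.1
    rw [e2]
    push_cast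
    ring
  rw [hsplit, abs_of_nonneg (Nat.cast_nonneg _)]
  have h4 : (Nat.card {φ : A₀[X][X][X] →+* F // φ (C (C c)) = 0 ∧ φ v = 0} : ℝ) ≤
      v.natDegree * (Nat.card F : ℝ) * (Nat.card {ψ : A₀[X] →+* F // ψ c = 0} : ℝ) := by
    exact_mod_cast bad_le v hv c
  calc (Nat.card {φ : A₀[X][X][X] →+* F // φ (C (C c)) = 0 ∧ φ v = 0} : ℝ) *
        √(Nat.card F : ℝ)
      ≤ (v.natDegree * (Nat.card F : ℝ) * (Nat.card {ψ : A₀[X] →+* F // ψ c = 0} : ℝ)) *
        (Nat.card F : ℝ) := mul_le_mul h4 hsq (Real.sqrt_nonneg _) (by positivity)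
    _ = v.natDegree * (Nat.card F : ℝ) *
        ((Nat.card {ψ : A₀[X] →+* F // ψ c = 0} : ℝ) * (Nat.card F : ℝ)) := by ring
    _ ≤ v.natDegree * (Nat.card F : ℝ) * (C0 * (Nat.card F : ℝ) ^ (d + 1)) :=
        mul_le_mul_of_nonneg_left hb (by positivity)
    _ = v.natDegree * C0 * (Nat.card F : ℝ) ^ (d + 2) := by ring

/-- ASYV: the number of the points of a hypersurface in the affine space of dimension three. -/
theorem t_AsyV (hG : StmGauss) : StmAsyV := by
  intro M _ _ A₀ _ _ _ _ _ d hd v hv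
  exact core hG M (RatFunc M) (RatFunc (RatFunc M)) RatFunc.X RatFunc.X
    RatFunc.transcendental_X RatFunc.adjoin_X RatFunc.transcendental_X RatFunc.adjoin_X
    A₀ d hd v hv

end Pool.Agent.K3h60.NP
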